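import Pool.Agent.H66.L.S8.W564.SC.Defs

/-!
Closing at `z` (project SC, part CL0).
-/

open scoped Manifold ContDiff Topology
open Filter Set Metric

universe u

namespace Pool.Agent.W74.SC

open Pool.Agent.H718R2.G Pool.Agent.W564.SC

lemma small_mono {n k k' : ℕ} {κ κ' : ℝ} {f : V n → V n} (h : Small n k κ f) (hk : k' ≤ k)
    (hκ : κ ≤ κ') : Small n k' κ' f where
  smooth := h.smooth
  supp := h.supp
  bd j hj x := (h.bd j (hj.trans hk) x).trans hκ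

theorem cl0 (h : S_NBHD.{u}) (h2 : S_BUMP) (h3 : S_PUSH.{u}) : S_CL0.{u} := by
  intro n N _ _ _ _ _ r hr P _ _ H hH χ z hχ U hU hHU
  obtain ⟨k, hk1, hkr, κ₀, hκ₀, hN⟩ := h n N r hr P H hH χ z hχ U hU hHU
  obtain ⟨C, hC, hB⟩ := h2 n k hk1
  refine ⟨k, hkr, min (min κ₀ (1 / 4)) (min (κ₀ / C) (1 / (2 * C))), by positivity, ?_⟩
  intro s ρ m hs hρ hρκ hm hsrc hw hi
  set κ := min (min κ₀ (1 / 4)) (min (κ₀ / C) (1 / (2 * C))) with hκ
  have k1 : κ ≤ κ₀ := (min_le_left _ _).trans (min_le_left _ _)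
  have k2 : κ ≤ 1 / 4 := (min_le_left _ _).trans (min_le_right _ _)
  have k3 : κ ≤ κ₀ / C := (min_le_right _ _).trans (min_le_left _ _)
  have k4 : κ ≤ 1 / (2 * C) := (min_le_right _ _).trans (min_le_right _ _)
  have hρk : 0 < ρ ^ k := pow_pos hρ k
  have hρ1 : ρ ≤ 1 := by linarith
  have hρk' : ρ ^ k ≤ ρ := by
    calc ρ ^ k ≤ ρ ^ 1 := pow_le_pow_of_le_one hρ.le hρ1 hk1
      _ = ρ := pow_one ρ
  have hwρ : ‖χ ((H s)^[m] z)‖ ≤ ρ := by
    refine hw.le.trans ?_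
    calc κ * ρ ^ k ≤ 1 * ρ ^ k := by gcongr; linarith
      _ = ρ ^ k := one_mul _
      _ ≤ ρ := hρk'
  obtain ⟨u, hu, huw, hu0⟩ := hB ρ hρ (by linarith) _ hwρ
  have hq : ‖χ ((H s)^[m] z)‖ / ρ ^ k ≤ κ := by
    rw [div_le_iff₀ hρk]; exact hw.le
  have hc1 : C * (‖χ ((H s)^[m] z)‖ / ρ ^ k) ≤ κ₀ := by
    calc C * (‖χ ((H s)^[m] z)‖ / ρ ^ k) ≤ C * (κ₀ / C) :=
          mul_le_mul_of_nonneg_left (hq.trans k3) hC.le
      _ = κ₀ := by field_simp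
  have hc2 : C * (‖χ ((H s)^[m] z)‖ / ρ ^ k) ≤ 1 / 2 := by
    calc C * (‖χ ((H s)^[m] z)‖ / ρ ^ k) ≤ C * (1 / (2 * C)) :=
          mul_le_mul_of_nonneg_left (hq.trans k4) hC.le
      _ = 1 / 2 := by field_simp
  obtain ⟨Θ, hΘ⟩ := h3 n N r χ z hχ u (small_mono hu hk1 hc2)
  have hGU := hN s u Θ (lt_of_lt_of_le hs k1) (small_mono hu le_rfl hc1) hΘ
  refine ⟨(H s).trans Θ, hGU, m, hm, ?_⟩
  have hG : ∀ y, ((H s).trans Θ) y = Θ (H s y) := fun y => rfl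
  have key : ∀ i, i < m → (⇑((H s).trans Θ))^[i] z = (H s)^[i] z := by
    intro i
    induction i with
    | zero => intro _; rfl
    | succ i ih =>
      intro him
      rw [Function.iterate_succ_apply', ih (by omega), hG, ← Function.iterate_succ_apply' (H s)]
      by_cases hy : (H s)^[i + 1] z ∈ χ.source
      · obtain ⟨a, b⟩ := hΘ.1 _ hy
        rw [hu0 _ (hi (i + 1) (Nat.succ_pos i) him hy), add_zero] at b
        exact χ.injOn a hy b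
      · exact hΘ.2 _ hy
  obtain ⟨m', rfl⟩ : ∃ m', m = m' + 1 := ⟨m - 1, by omega⟩
  rw [Function.iterate_succ_apply', key m' (by omega), hG, ← Function.iterate_succ_apply' (H s)]
  obtain ⟨a, b⟩ := hΘ.1 _ hsrc
  rw [huw, add_neg_cancel, ← hχ.zero] at b
  exact χ.injOn a hχ.src b

end Pool.Agent.W74.SC
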